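import Pool.Agent.X208.IU.Main

/-! ZFC refutes long `Σ₁`-definable well-orderings at limits of measurable cardinals. -/

set_option autoImplicit false

open Cardinal Ordinal Pool.Agent.X208.IU

namespace Pool.Agent.Results.MP_1748a2_lc.NoLongWellOrder

universe u

/-- Let `κ` be a limit of measurable cardinals (of any cofinality), let `p` be in `H(κ)` or equal
to `κ`, and let `R` be a well-ordering of a set `D` of subsets of `κ` of cardinality greater
than `κ`. Then the set of the ordered pairs `(a, b)` with `R a b` is not definable by a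
`Σ₁`-formula with the parameter `p`. -/
theorem result (κ : Cardinal.{u}) (hκ : IsLimitOfMeasurables κ) (p : ZFSet.{u})
    (hp : InH κ p ∨ p = κ.ord.toZFSet) (D : Set ZFSet.{u}) (hD : ∀ x ∈ D, x ⊆ κ.ord.toZFSet)
    (hcard : Cardinal.lift.{u + 1} κ < #D) (R : ZFSet.{u} → ZFSet.{u} → Prop)
    (hR : IsWellOrdering D R) : ¬ Sig1Def (fun z => ∃ a b, z = ZFSet.pair a b ∧ R a b) p :=
  no_long_wo κ hκ p hp D hD hcard R hR

end Pool.Agent.Results.MP_1748a2_lc.NoLongWellOrder
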